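import Pool.Agent.Q145.GL.Suf
import Pool.Agent.Q145.LS.All
import Pool.Agent.Q145.HC.Fin
import Pool.Agent.Q53.HQ.SGNQ

/-!
# Project GL: assembly of all parts
-/

set_option autoImplicit false

namespace Pool.Agent.Q145.GL

open Finset Filter
open Pool.Agent.Q145.SZ Pool.Agent.Q145.LS Pool.Agent.Q145.HC
open Pool.Agent.Q111.SZ Pool.Agent.Q58.SZ Pool.Agent.Q177.SZ

theorem sufl : SUFP PSL := by
  obtain ⟨a', hpb⟩ := pair_boundS t_UNI t_RED hs' t_SIEVE t_SPC Pool.Agent.Q111.SZ.t_PWB t_US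
  exact sufSL sufS (Pool.Agent.Q241.HC.t_MSL hyb' t_SHL) (t_LCOR t_ENG t_MAJL t_GSL t_MINL t_PWB) Pool.Agent.Q111.SZ.t_PWB tails' t_PNL Pool.Agent.Q145.HQ.t_SGNQ
    t_RED t_MBSS Pool.Agent.Q211.LS.Tr.t_TRANSS hpb

theorem main1 (A ε : ℝ) (hε : 0 < ε) : ∀ᶠ X : ℕ in atTop, ∀ Q : ℕ, (Q : ℝ) ≤ A * Real.log (Real.log X) → PSL X Q ε :=
  case1 zr' Pool.Agent.Q111.SZ.t_PWB Pool.Agent.Q177.SZ.t_SIEG sufl A ε hε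

theorem main2 : ∃ c : ℝ, 0 < c ∧ ∀ ε : ℝ, 0 < ε → ∃ᶠ X : ℕ in atTop, ∀ Q : ℕ, (Q : ℝ) ≤ c * (Real.log X / Real.log (Real.log X)) → PSL X Q ε :=
  case2 Pool.Agent.Q111.SZ.t_PWB sufl good'

theorem main3 : ∃ c C : ℝ, 0 < c ∧ 0 < C ∧ ∀ ε : ℝ, 0 < ε → ∀ᶠ X : ℕ in atTop,
      (∀ (r : ℕ) [NeZero r], 1 < r → (r : ℝ) ≤ Real.exp (Real.log X / Real.log (Real.log X)) → ∀ χ : DirichletCharacter ℂ r, χ.IsPrimitive → χ ^ 2 = 1 →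
        ∀ β : ℝ, χ.LFunction β = 0 → β ≤ 1 - C * (Real.log (Real.log X) / Real.log X)) →
      ∀ Q : ℕ, (Q : ℝ) ≤ c * (Real.log X / Real.log (Real.log X)) → PSL X Q ε :=
  dich zr' Pool.Agent.Q111.SZ.t_PWB sufl

end Pool.Agent.Q145.GL
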