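import Pool.Agent.Q145.GL.Pairb
import Pool.Agent.Q145.HQ.LawB

/-!
# Project GL: one system
-/

set_option autoImplicit false

namespace Pool.Agent.Q145.GL

open Finset Filter Complex
open Pool.Agent.Q145.SZ Pool.Agent.Q145.LS Pool.Agent.Q145.HC
open Pool.Agent.Q145.HQ (S_SGNQ)

/-- the points of the system -/
def ptsS {K : ℕ} (X : ℕ) (a : Fin K → ℤ) (s : Fin K → ℕ) : Finset ℕ := (Ioc X (2 * X)).filter fun n => n.Prime ∧ ∀ i, (vl (a i) n (s i)).Prime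

lemma ptsS_card {K : ℕ} (X : ℕ) (a : Fin K → ℤ) (s : Fin K → ℕ) : (ptsS X a s).card = cntS X a s := rfl

/-- the logarithms -/
noncomputable def lgs {K : ℕ} (X : ℕ) (a : Fin K → ℤ) : ℝ := Real.log X * ∏ i, Real.log ((a i).natAbs * X)

/-- The signs of `λ` along the points are independent of each other and of any weight, in mean square over the shifts. -/
def SignsS {K L : ℕ} (X : ℕ) (a : Fin K → ℤ) (c : Fin L → ℤ) (ε : ℝ) (s : Fin K → ℕ) : Prop :=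
  ∀ (e : Fin L → ℝ) (w : ℕ → ℂ), (∀ j, e j = 1 ∨ e j = -1) → (∀ n, ‖w n‖ ≤ 1) →
    ∑ t ∈ Fintype.piFinset (fun j : Fin L => bx X (c j)), (‖(2 : ℂ) ^ L * (∑ n ∈ (ptsS X a s).filter fun n => ∀ j, lm (vl (c j) n (t j)) = e j, w n) -
      ∑ n ∈ ptsS X a s, w n‖ * lgs X a) ^ 2 ≤ (∏ j, (((c j).natAbs * X : ℕ) : ℝ)) * (ε * (singS a s * X)) ^ 2

lemma sum_bx {L : ℕ} (X : ℕ) (c : Fin L → ℤ) (F : (Fin L → ℕ) → ℝ) :
    ∑ t ∈ Fintype.piFinset (fun j : Fin L => bx X (c j)), F t = ∑ t ∈ Fintype.piFinset (fun j : Fin L => Icc 1 ((c j).natAbs * X)), F (fun j => lo X (c j) + t j) := by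
  symm
  refine sum_bij' (fun t _ => fun j => lo X (c j) + t j) (fun t _ => fun j => t j - lo X (c j)) ?_ ?_ ?_ ?_ ?_
  · intro t ht
    rw [Fintype.mem_piFinset] at ht ⊢
    intro j
    have := ht j
    rw [mem_Icc] at this
    unfold bx
    rw [mem_Ioc]
    omega
  · intro t ht
    rw [Fintype.mem_piFinset] at ht ⊢
    intro j
    have := ht j
    unfold bx at this
    rw [mem_Ioc] at this
    rw [mem_Icc]
    omega
  · intro t _
    funext j
    simp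
  · intro t ht
    rw [Fintype.mem_piFinset] at ht
    funext j
    have := ht j
    unfold bx at this
    rw [mem_Ioc] at this
    simp only
    omega
  · intro t _
    rfl

lemma vl_gt (red : S_RED) {X : ℕ} {a : ℤ} (ha : a ≠ 0) {n s : ℕ} (hn : n ∈ Ioc X (2 * X)) (hs : s ∈ bx X a) : a.natAbs * X ≤ vl a n s := by
  obtain ⟨h1, h2⟩ := (red X a ha).1 n hn
  unfold bx at hs
  rw [mem_Ioc] at hs
  rw [mem_Ioc] at h1
  have e : s = lo X a + (s - lo X a) := by omega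
  rw [e, h2]
  omega

/-- the pairs of points in an exceptional set -/
lemma pair_countS (red : S_RED) {K X : ℕ} (hX : 3 ≤ X) (a : Fin K → ℤ) (ha : ∀ i, a i ≠ 0) (s : Fin K → ℕ) (hs : ∀ i, s i ∈ bx X (a i)) (E₀ E : Finset (ℕ × ℕ))
    (hE : ∀ x ∈ E, x ∈ E₀ ∨ x.1 = x.2) :
    (((ptsS X a s ×ˢ ptsS X a s).filter fun x => x ∈ E).card : ℝ) * lgs X a ^ 2 ≤ PRl X a E₀ s := by
  classical
  have hX0 : (0 : ℝ) < X := by
    have : 0 < X := by omega
    exact_mod_cast this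
  have hX1 : (1 : ℝ) ≤ X := by
    have : 1 ≤ X := by omega
    exact_mod_cast this
  have hL0 : 0 ≤ Real.log X := Real.log_natCast_nonneg _
  have hai : ∀ i, (1 : ℝ) ≤ ((a i).natAbs : ℝ) := fun i => by
    have : 1 ≤ (a i).natAbs := Int.natAbs_pos.2 (ha i)
    exact_mod_cast this
  have hL : ∀ i, 0 ≤ Real.log ((a i).natAbs * X) := fun i => Real.log_nonneg (by nlinarith [hai i])
  unfold PRl
  rw [← nsmul_eq_mul, ← sum_const]
  refine le_trans (sum_le_sum (g := fun x : ℕ × ℕ => wt x.1 * wt x.2 * ∏ i, wt (vl (a i) x.1 (s i)) * wt (vl (a i) x.2 (s i))) ?_)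
    (sum_le_sum_of_subset_of_nonneg ?_ fun x _ _ => mul_nonneg (mul_nonneg (SZ.wt_nonneg _) (SZ.wt_nonneg _)) (prod_nonneg fun i _ => mul_nonneg (SZ.wt_nonneg _) (SZ.wt_nonneg _)))
  · intro x hx
    rw [mem_filter, mem_product] at hx
    obtain ⟨⟨h1, h2⟩, _⟩ := hx
    unfold ptsS at h1 h2
    rw [mem_filter] at h1 h2
    have m1 := mem_Ioc.1 h1.1
    have m2 := mem_Ioc.1 h2.1
    have e : lgs X a ^ 2 = (Real.log X * Real.log X) * ∏ i : Fin K, (Real.log ((a i).natAbs * X) * Real.log ((a i).natAbs * X)) := by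
      unfold lgs
      rw [prod_mul_distrib]; ring
    rw [e]
    have wn : ∀ n : ℕ, n.Prime → X < n → Real.log X ≤ wt n := by
      intro n hn h
      unfold wt
      rw [if_pos hn]
      apply Real.log_le_log hX0
      exact_mod_cast h.le
    apply mul_le_mul
    · exact mul_le_mul (wn _ h1.2.1 m1.1) (wn _ h2.2.1 m2.1) hL0 (SZ.wt_nonneg _)
    · apply prod_le_prod (fun i _ => mul_nonneg (hL i) (hL i))
      intro i _
      have hH0 : (0 : ℝ) < (a i).natAbs * X := by nlinarith [hai i]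
      have a1 : Real.log ((a i).natAbs * X) ≤ wt (vl (a i) x.1 (s i)) := by
        unfold wt; rw [if_pos (h1.2.2 i)]
        apply Real.log_le_log hH0
        have := vl_gt red (ha i) h1.1 (hs i)
        exact_mod_cast this
      have a2 : Real.log ((a i).natAbs * X) ≤ wt (vl (a i) x.2 (s i)) := by
        unfold wt; rw [if_pos (h2.2.2 i)]
        apply Real.log_le_log hH0
        have := vl_gt red (ha i) h2.1 (hs i)
        exact_mod_cast this
      exact mul_le_mul a1 a2 (hL i) (SZ.wt_nonneg _)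
    · exact prod_nonneg fun i _ => mul_nonneg (hL i) (hL i)
    · exact mul_nonneg (SZ.wt_nonneg _) (SZ.wt_nonneg _)
  · intro x hx
    rw [mem_filter, mem_product] at hx ⊢
    obtain ⟨⟨h1, h2⟩, h3⟩ := hx
    have b1 : x.1 ∈ Ioc X (2 * X) := (mem_filter.1 h1).1
    have b2 : x.2 ∈ Ioc X (2 * X) := (mem_filter.1 h2).1
    exact ⟨⟨b1, b2⟩, hE x h3⟩

/-- one system -/
lemma signs_ofS (sgn : S_SGNQ) (red : S_RED) {K L X : ℕ} {a : Fin K → ℤ} {c : Fin L → ℤ} (hX : 3 ≤ X) (ha : ∀ i, a i ≠ 0) (hc0 : ∀ j, c j ≠ 0)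
    (s : Fin K → ℕ) (hs : ∀ i, s i ∈ bx X (a i)) (E₀ : Finset (ℕ × ℕ)) {δ e ε M : ℝ}
    (he : 0 < e) (he1 : e ≤ 1) (heε : 8 * e ≤ ε) (hε1 : ε ≤ 1) (hδ : 0 ≤ δ) (hLδ : 10 * L * δ ≤ e ^ 2)
    (hpn : ∀ j, ∀ n ∈ Ioc X (2 * X), |∑ t ∈ Icc 1 ((c j).natAbs * X), lm (fl X (c j) n + t)| ≤ δ * (((c j).natAbs * X : ℕ) : ℝ))
    (hc : ∀ j, ∀ n ∈ Ioc X (2 * X), ∀ m ∈ Ioc X (2 * X), n ≠ m → (n, m) ∉ E₀ →
      |∑ t ∈ Icc 1 ((c j).natAbs * X), lm (fl X (c j) n + t) * lm (fl X (c j) m + t)| ≤ δ * (((c j).natAbs * X : ℕ) : ℝ))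
    (hSp : 0 < singS a s * X) (h1 : |cntS X a s * lgs X a - singS a s * X| ≤ ε / 2 * (singS a s * X)) (hM0 : 0 ≤ M) (hM : M ≤ 2 * (singS a s * X))
    (hP : 2 ^ (L + 2) * PRl X a E₀ s ≤ e ^ 2 * M ^ 2) :
    SignsS X a c ε s := by
  classical
  set E : Finset (ℕ × ℕ) := E₀ ∪ (Ioc X (2 * X) ×ˢ Ioc X (2 * X)).filter (fun q => q.1 = q.2) with hE
  set P := ptsS X a s with hPdef
  set S : ℝ := singS a s * X with hSdef
  set N : ℝ := (P.card : ℝ) with hN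
  set Lk : ℝ := lgs X a with hLk
  have hai : ∀ i, (1 : ℝ) ≤ ((a i).natAbs : ℝ) := fun i => by
    have : 1 ≤ (a i).natAbs := Int.natAbs_pos.2 (ha i)
    exact_mod_cast this
  have hX1 : (1 : ℝ) ≤ X := by
    have : 1 ≤ X := by omega
    exact_mod_cast this
  have hLk0 : 0 ≤ Lk := by
    rw [hLk]
    unfold lgs
    exact mul_nonneg (Real.log_natCast_nonneg _) (prod_nonneg fun i _ => Real.log_nonneg (by nlinarith [hai i]))
  have hNc : (cntS X a s : ℝ) = N := by rw [hN, hPdef, ptsS_card]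
  rw [hNc] at h1
  set Qc : ℝ := (((P ×ˢ P).filter fun x => x ∈ E).card : ℝ) with hQ
  set PR : ℝ := PRl X a E₀ s with hPR
  have hQP : Qc * Lk ^ 2 ≤ PR := by
    apply pair_countS red hX a ha s hs E₀ E
    intro q hq
    rw [hE, mem_union, mem_filter] at hq
    rcases hq with hq | hq
    · exact Or.inl hq
    · exact Or.inr hq.2
  have hPX : ∀ n ∈ P, n ∈ Ioc X (2 * X) := fun n hn => (mem_filter.1 hn).1
  have hcE : ∀ j, ∀ n ∈ P, ∀ m ∈ P, (n, m) ∉ E → |∑ t ∈ Icc 1 ((c j).natAbs * X), lm (fl X (c j) n + t) * lm (fl X (c j) m + t)| ≤ δ * (((c j).natAbs * X : ℕ) : ℝ) := by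
    intro j n hn m hm hnm
    rw [hE, mem_union, not_or, mem_filter, not_and] at hnm
    exact hc j n (hPX n hn) m (hPX m hm) (hnm.2 (mem_product.2 ⟨hPX n hn, hPX m hm⟩)) hnm.1
  have hPR0 : 0 ≤ PR := PRl_nonneg X a E₀ s
  have hpow : (1 : ℝ) ≤ 2 ^ (L + 2) := one_le_pow₀ (by norm_num)
  have hM2 : M ^ 2 ≤ 4 * S ^ 2 := by nlinarith
  have hPR2 : 2 ^ (L + 2) * PR ≤ 4 * e ^ 2 * S ^ 2 := by
    refine hP.trans ?_
    nlinarith [sq_nonneg e]
  have hNL0 : 0 ≤ N * Lk := by positivity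
  have hNL : N * Lk ≤ 2 * S := by
    have := (abs_le.1 h1).2
    nlinarith
  have hNL2 : (N * Lk) ^ 2 ≤ 4 * S ^ 2 := by nlinarith
  have hε0 : 0 < ε := by linarith
  have h64 : 64 * e ^ 2 ≤ ε ^ 2 := by nlinarith
  have hS2 : 0 ≤ S ^ 2 := by positivity
  intro u w hu hw
  have hG : ∀ j, 1 ≤ (c j).natAbs * X := fun j => Nat.mul_pos (Int.natAbs_pos.2 (hc0 j)) (by omega)
  have k1 := sgn L (fun j => (c j).natAbs * X) P E (fun j n t => lm (fl X (c j) n + t)) u δ w hG hδ (by nlinarith [sq_nonneg e]) (fun j n t => lm_cases _) hu hw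
    (fun j n hn => hpn j n (hPX n hn)) (fun j n hn m hm hnm => hcE j n hn m hm hnm)
  have hXL : (0 : ℝ) ≤ ∏ j, (((c j).natAbs * X : ℕ) : ℝ) := prod_nonneg fun j _ => Nat.cast_nonneg _
  rw [sum_bx]
  have k2 : ∑ t ∈ Fintype.piFinset (fun j : Fin L => Icc 1 ((c j).natAbs * X)),
      (‖(2 : ℂ) ^ L * (∑ n ∈ P.filter fun n => ∀ j, lm (vl (c j) n ((fun j => lo X (c j) + t j) j)) = u j, w n) - ∑ n ∈ P, w n‖ * Lk) ^ 2 =
      Lk ^ 2 * ∑ t ∈ Fintype.piFinset (fun j : Fin L => Icc 1 ((c j).natAbs * X)),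
      ‖(2 : ℂ) ^ L * (∑ n ∈ P.filter fun n => ∀ j, lm (fl X (c j) n + t j) = u j, w n) - ∑ n ∈ P, w n‖ ^ 2 := by
    rw [mul_sum]
    refine sum_congr rfl fun t _ => ?_
    have e1 : (P.filter fun n => ∀ j, lm (vl (c j) n ((fun j => lo X (c j) + t j) j)) = u j) = P.filter fun n => ∀ j, lm (fl X (c j) n + t j) = u j := by
      apply filter_congr
      intro n hn
      refine forall_congr' fun j => ?_
      rw [((red X (c j) (hc0 j)).1 n (hPX n hn)).2]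
    rw [e1]
    ring
  rw [k2]
  refine (mul_le_mul_of_nonneg_left k1 (by positivity : 0 ≤ Lk ^ 2)).trans ?_
  have : Lk ^ 2 * ((∏ j, (((c j).natAbs * X : ℕ) : ℝ)) * (10 * L * δ * N ^ 2 + 2 ^ (L + 2) * Qc)) =
      (∏ j, (((c j).natAbs * X : ℕ) : ℝ)) * (10 * L * δ * (N * Lk) ^ 2 + 2 ^ (L + 2) * (Qc * Lk ^ 2)) := by ring
  rw [this]
  apply mul_le_mul_of_nonneg_left _ hXL
  have a1 : 10 * L * δ * (N * Lk) ^ 2 ≤ e ^ 2 * (4 * S ^ 2) := by
    apply mul_le_mul hLδ hNL2 (by positivity) (by positivity)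
  have a2 : 2 ^ (L + 2) * (Qc * Lk ^ 2) ≤ 2 ^ (L + 2) * PR := by gcongr
  nlinarith

open Classical in
/-- the law for all but a proportion `ε` of the admissible constants -/
def HLl {K L : ℕ} (X : ℕ) (a : Fin K → ℤ) (c : Fin L → ℤ) (ε : ℝ) : Prop :=
  (((ATS X a).filter fun s => ¬ (0 < singS a s ∧ |cntS X a s * lgs X a - singS a s * X| ≤ ε * (singS a s * X) ∧ SignsS X a c ε s)).card : ℝ) ≤
    ε * (ATS X a).card

end Pool.Agent.Q145.GL
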