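import Pool.Agent.Q213.LS.Mom2
import Pool.Agent.Q145.LS.Fin

/-!
# Project GL (helper145): Goldbach and Dickson systems at primes with Liouville signs. The exceptional and the diagonal pairs

Adapted from `Pool/Agent/Q213/LS/Mom2.lean` (parts (b), (c)).
-/

set_option autoImplicit false

namespace Pool.Agent.Q145.GL

open Finset Filter
open Pool.Agent.Q145.SZ Pool.Agent.Q145.LS

/-- the exceptional and the diagonal pairs of a system at primes -/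
noncomputable def PRl {K : ℕ} (X : ℕ) (a : Fin K → ℤ) (E : Finset (ℕ × ℕ)) (s : Fin K → ℕ) : ℝ :=
  ∑ x ∈ (Ioc X (2 * X) ×ˢ Ioc X (2 * X)).filter (fun x => x ∈ E ∨ x.1 = x.2), wt x.1 * wt x.2 * ∏ i, wt (vl (a i) x.1 (s i)) * wt (vl (a i) x.2 (s i))

lemma PRl_nonneg {K : ℕ} (X : ℕ) (a : Fin K → ℤ) (E : Finset (ℕ × ℕ)) (s : Fin K → ℕ) : 0 ≤ PRl X a E s :=
  sum_nonneg fun _ _ => mul_nonneg (mul_nonneg (Mom2.wt_nonneg _) (Mom2.wt_nonneg _)) (prod_nonneg fun _ _ => mul_nonneg (Mom2.wt_nonneg _) (Mom2.wt_nonneg _))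

section

variable {W : ℕ} [NeZero W]

/-- the mean over a product of classes of the weight of a set of pairs -/
theorem pair_sumS {K : ℕ} (T : Finset (ℕ × ℕ)) (X : ℕ) (a : Fin K → ℤ) (b : Fin K → ZMod W) :
    (∑ s ∈ SbS X a b, ∑ x ∈ T, wt x.1 * wt x.2 * ∏ i, wt (vl (a i) x.1 (s i)) * wt (vl (a i) x.2 (s i))) / (SbS X a b).card =
      ∑ x ∈ T, wt x.1 * wt x.2 * ∏ i, B2s X (a i) x.1 x.2 (b i) := by
  have h3 : ((SbS X a b).card : ℝ) = ∏ i, ((bcl X (a i) (b i)).card : ℝ) := by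
    unfold SbS
    rw [Fintype.card_piFinset]
    push_cast
    rfl
  have h2 : ∀ x : ℕ × ℕ, ∑ s ∈ SbS X a b, ∏ i, wt (vl (a i) x.1 (s i)) * wt (vl (a i) x.2 (s i)) =
      ∏ i, ∑ t ∈ bcl X (a i) (b i), wt (vl (a i) x.1 t) * wt (vl (a i) x.2 t) := by
    intro x
    rw [Finset.prod_univ_sum]
    rfl
  rw [Finset.sum_comm, Finset.sum_div]
  refine Finset.sum_congr rfl fun x _ => ?_
  rw [← Finset.mul_sum, h2, h3, mul_div_assoc, ← Finset.prod_div_distrib]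
  rfl

end

open Mom2 in
theorem momes (hU : S_UNI) (W : ℕ) [NeZero W] (X K : ℕ) (a : Fin K → ℤ) (C₀ D₀ e₂ : ℝ) (S : Fin K → ℕ → ℕ → ℝ) (T : ℕ → ℕ → ℝ) (E : Finset (ℕ × ℕ))
    (hWX : W ≤ X) (hC₀ : 0 ≤ C₀) (hD₀ : 0 ≤ D₀) (hS : ∀ i n m, 0 < S i n m) (hT : ∀ n m, 0 ≤ T n m)
    (hST : ∀ i, ∀ n ∈ Ioc X (2 * X), ∀ m ∈ Ioc X (2 * X), n ≠ m → S i n m ≤ T n m)
    (H2' : ∀ i, ∀ n ∈ Ioc X (2 * X), ∀ m ∈ Ioc X (2 * X), ∀ β : ZMod W, β ∉ Us (um W a i * (n : ZMod W)) (um W a i * (m : ZMod W)) → B2s X (a i) n m β = 0)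
    (H3 : ∀ i, ∀ n ∈ Ioc X (2 * X), ∀ m ∈ Ioc X (2 * X), n ≠ m → ∀ β : ZMod W, B2s X (a i) n m β ≤ C₀ * vv W ^ 2 * S i n m)
    (H4 : ∀ i, ∀ n ∈ Ioc X (2 * X), ∀ β : ZMod W, B2s X (a i) n n β ≤ D₀)
    (hwt : ∀ n ∈ Ioc X (2 * X), wt n ≤ 2 * Real.log X)
    (HE : ∑ q ∈ E.filter (fun q => q.1 ∈ Ioc X (2 * X) ∧ q.2 ∈ Ioc X (2 * X) ∧ q.1 ≠ q.2), T q.1 q.2 ^ K ≤ e₂ * (X : ℝ) ^ 2) :
    ∑ b ∈ AdW (um W a), (∑ s ∈ SbS X a b, PRl X a E s / MbS X (um W a) b ^ 2) / (SbS X a b).card ≤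
      ((W : ℝ) ^ 2 * C₀ ^ K * e₂ * (2 * Real.log X) ^ 2 + (W : ℝ) ^ 2 * D₀ ^ K * (2 * Real.log X) ^ 2 / X) * (AdW (um W a)).card := by
  classical
  have hWp : 0 < W := Nat.pos_of_ne_zero (NeZero.ne W)
  have hXp : 0 < X := lt_of_lt_of_le hWp hWX
  have hWr : (0 : ℝ) < W := by exact_mod_cast hWp
  have hXr : (0 : ℝ) < X := by exact_mod_cast hXp
  have hv : (1 : ℝ) ≤ vv W := one_le_vv
  have hv0 : (0 : ℝ) < vv W := lt_of_lt_of_le one_pos hv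
  have hv2 : (1 : ℝ) ≤ vv W ^ 2 := one_le_pow₀ hv
  set u := um W a with hu
  set A : ℝ := ((AdW u).card : ℝ) with hA
  have hA0 : 0 ≤ A := Nat.cast_nonneg _
  set L : ℝ := 2 * Real.log X with hLdef
  have hLn : 0 ≤ L := by
    rw [hLdef]
    exact mul_nonneg (by norm_num) (Real.log_natCast_nonneg _)
  set P : Finset (ℕ × ℕ) := (Ioc X (2 * X) ×ˢ Ioc X (2 * X)).filter (fun x => x ∈ E ∨ x.1 = x.2) with hP
  have hPm : ∀ x ∈ P, x.1 ∈ Ioc X (2 * X) ∧ x.2 ∈ Ioc X (2 * X) := by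
    intro x hx
    rw [hP, mem_filter, mem_product] at hx
    exact hx.1
  set Q : ℕ → ℕ → ℝ := fun n m => ∑ b : Fin K → ZMod W, w2s u (n : ZMod W) (m : ZMod W) b *
    ∏ i, (B2s X (a i) n m (b i) / vv W ^ 2) with hQ
  -- reduction
  have h1 : ∑ b ∈ AdW u, (∑ s ∈ SbS X a b, PRl X a E s / MbS X u b ^ 2) / (SbS X a b).card ≤
      ((W : ℝ) / (X * vv W)) ^ 2 * ∑ x ∈ P, wt x.1 * wt x.2 * Q x.1 x.2 := by
    have e1 : ∀ b : Fin K → ZMod W,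
        (∑ s ∈ SbS X a b, PRl X a E s / MbS X u b ^ 2) / (SbS X a b).card =
        ∑ x ∈ P, ((W : ℝ) / (X * vv W)) ^ 2 * (wt x.1 * wt x.2 * (w2s u (x.1 : ZMod W) (x.2 : ZMod W) b *
          ∏ i, (B2s X (a i) x.1 x.2 (b i) / vv W ^ 2))) := by
      intro b
      unfold PRl
      rw [← Finset.sum_div, div_right_comm, pair_sumS, Finset.sum_div]
      refine Finset.sum_congr rfl fun x hx => ?_
      exact term_eq hXp hWX (hPm x hx).1 (hPm x hx).2 a b fun i β hβ => H2' i x.1 (hPm x hx).1 x.2 (hPm x hx).2 β hβ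
    rw [Finset.sum_congr rfl fun b _ => e1 b, Finset.sum_comm, Finset.mul_sum]
    refine Finset.sum_le_sum fun x _ => ?_
    rw [← Finset.mul_sum, ← Finset.mul_sum]
    refine mul_le_mul_of_nonneg_left (mul_le_mul_of_nonneg_left ?_
      (mul_nonneg (SZ.wt_nonneg _) (SZ.wt_nonneg _))) (sq_nonneg _)
    refine Finset.sum_le_sum_of_subset_of_nonneg (Finset.subset_univ _) fun b _ _ => ?_
    exact mul_nonneg (w2s_nonneg _ _ _ _) (Finset.prod_nonneg fun i _ =>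
      div_nonneg (B2s_nonneg _ _ _ _ _) (sq_nonneg _))
  -- bound of the terms
  have h2 : ∀ x ∈ Ioc X (2 * X) ×ˢ Ioc X (2 * X), (if x ∈ E ∨ x.1 = x.2 then wt x.1 * wt x.2 * Q x.1 x.2 else 0) ≤
      (if x ∈ E ∧ x.1 ≠ x.2 then L ^ 2 * (C₀ ^ K * A) * T x.1 x.2 ^ K else 0) +
        (if x.1 = x.2 then L ^ 2 * (D₀ ^ K * A) else 0) := by
    intro x hx
    rw [mem_product] at hx
    obtain ⟨hn, hm⟩ := hx
    have q0 : 0 ≤ wt x.1 * wt x.2 := mul_nonneg (SZ.wt_nonneg _) (SZ.wt_nonneg _)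
    have q1 : wt x.1 * wt x.2 ≤ L ^ 2 := by
      rw [sq]
      exact mul_le_mul (hwt _ hn) (hwt _ hm) (SZ.wt_nonneg _) hLn
    by_cases hnm : x.1 = x.2
    · rw [if_pos (Or.inr hnm), if_neg (by tauto), if_pos hnm, zero_add]
      have := Q_le hU X a x.1 x.2 u (x.1 : ZMod W) (x.2 : ZMod W) D₀ (fun _ => 1) 1 hD₀
        (fun _ => zero_le_one) (fun _ => le_rfl) (fun i β => by
          rw [mul_one]
          refine (div_le_self (B2s_nonneg _ _ _ _ _) hv2).trans ?_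
          rw [← hnm]
          exact H4 i x.1 hn β)
      rw [one_pow, mul_one] at this
      calc wt x.1 * wt x.2 * Q x.1 x.2 ≤ wt x.1 * wt x.2 * (D₀ ^ K * A) := mul_le_mul_of_nonneg_left this q0
        _ ≤ L ^ 2 * (D₀ ^ K * A) :=
          mul_le_mul_of_nonneg_right q1 (mul_nonneg (pow_nonneg hD₀ K) hA0)
    · rw [if_neg hnm, add_zero]
      by_cases hE : x ∈ E
      · rw [if_pos (Or.inl hE), if_pos ⟨hE, hnm⟩]
        have := Q_le hU X a x.1 x.2 u (x.1 : ZMod W) (x.2 : ZMod W) C₀ (fun i => S i x.1 x.2) (T x.1 x.2) hC₀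
          (fun i => (hS i x.1 x.2).le) (fun i => hST i x.1 hn x.2 hm hnm) (fun i β => by
          rw [div_le_iff₀ (by positivity)]
          refine (H3 i x.1 hn x.2 hm hnm β).trans (le_of_eq ?_)
          ring)
        calc wt x.1 * wt x.2 * Q x.1 x.2 ≤ wt x.1 * wt x.2 * (C₀ ^ K * T x.1 x.2 ^ K * A) :=
              mul_le_mul_of_nonneg_left this q0
          _ ≤ L ^ 2 * (C₀ ^ K * T x.1 x.2 ^ K * A) := mul_le_mul_of_nonneg_right q1
              (mul_nonneg (mul_nonneg (pow_nonneg hC₀ K) (pow_nonneg (hT _ _) K)) hA0)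
          _ = _ := by ring
      · rw [if_neg (by tauto), if_neg (by tauto)]
  -- the two sums
  have h3 : ∑ x ∈ P, wt x.1 * wt x.2 * Q x.1 x.2 ≤
      L ^ 2 * (C₀ ^ K * A) * (e₂ * (X : ℝ) ^ 2) + X * (L ^ 2 * (D₀ ^ K * A)) := by
    rw [hP, Finset.sum_filter]
    refine (Finset.sum_le_sum h2).trans ?_
    rw [Finset.sum_add_distrib]
    refine add_le_add ?_ ?_
    · have e1 : ∑ x ∈ Ioc X (2 * X) ×ˢ Ioc X (2 * X),
          (if x ∈ E ∧ x.1 ≠ x.2 then L ^ 2 * (C₀ ^ K * A) * T x.1 x.2 ^ K else 0) =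
          L ^ 2 * (C₀ ^ K * A) * ∑ q ∈ E.filter (fun q => q.1 ∈ Ioc X (2 * X) ∧
            q.2 ∈ Ioc X (2 * X) ∧ q.1 ≠ q.2), T q.1 q.2 ^ K := by
        rw [Finset.mul_sum, ← Finset.sum_filter]
        refine Finset.sum_congr ?_ fun q _ => rfl
        ext q
        simp only [Finset.mem_filter, Finset.mem_product]
        constructor
        · rintro ⟨⟨h1, h2⟩, h3, h4⟩
          exact ⟨h3, h1, h2, h4⟩
        · rintro ⟨h1, h2, h3, h4⟩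
          exact ⟨⟨h2, h3⟩, h1, h4⟩
      rw [e1]
      exact mul_le_mul_of_nonneg_left HE
        (mul_nonneg (sq_nonneg _) (mul_nonneg (pow_nonneg hC₀ K) hA0))
    · rw [Finset.sum_product]
      have e1 : ∀ n ∈ Ioc X (2 * X), ∑ m ∈ Ioc X (2 * X),
          (if (n, m).1 = (n, m).2 then L ^ 2 * (D₀ ^ K * A) else 0) = L ^ 2 * (D₀ ^ K * A) := by
        intro n hn
        simp only
        rw [Finset.sum_ite_eq (Ioc X (2 * X)) n, if_pos hn]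
      rw [Finset.sum_congr rfl e1, Finset.sum_const, Nat.card_Ioc, nsmul_eq_mul]
      have : ((2 * X - X : ℕ) : ℝ) = X := by
        congr 1
        omega
      rw [this]
  refine (h1.trans (mul_le_mul_of_nonneg_left h3 (sq_nonneg _))).trans ?_
  have k2 : (W : ℝ) / (X * vv W) ≤ W / X := by
    apply div_le_div_of_nonneg_left hWr.le hXr
    nlinarith
  have k3 : ((W : ℝ) / (X * vv W)) ^ 2 ≤ (W / X) ^ 2 :=
    pow_le_pow_left₀ (by positivity) k2 2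
  have k0 : 0 ≤ ∑ q ∈ E.filter (fun q => q.1 ∈ Ioc X (2 * X) ∧ q.2 ∈ Ioc X (2 * X) ∧ q.1 ≠ q.2), T q.1 q.2 ^ K :=
    Finset.sum_nonneg fun q _ => pow_nonneg (hT _ _) K
  have k1 : 0 ≤ e₂ * (X : ℝ) ^ 2 := k0.trans HE
  have k4 : 0 ≤ L ^ 2 * (C₀ ^ K * A) * (e₂ * (X : ℝ) ^ 2) + X * (L ^ 2 * (D₀ ^ K * A)) := by
    positivity
  refine (mul_le_mul_of_nonneg_right k3 k4).trans (le_of_eq ?_)
  field_simp

end Pool.Agent.Q145.GL
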