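import Pool.Agent.Q145.GL.LawB
import Pool.Agent.Q145.HQ.Inp

/-!
# Project GL: a zero-free region gives the law
-/

set_option autoImplicit false

namespace Pool.Agent.Q145.GL

open Finset Filter
open Pool.Agent.Q145.SZ Pool.Agent.Q145.LS Pool.Agent.Q145.HC
open Pool.Agent.Q145.HQ (S_SGNQ)

open Classical in
/-- transfer from the classes to the admissible constants -/
lemma law_ofS (sgn : S_SGNQ) (red : S_RED) (mbs : S_MBSS) (tr : S_TRANSS) {K L X z : ℕ} {a : Fin K → ℤ} {c : Fin L → ℤ}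
    (hX : 3 ≤ X) (hKz : K + 1 ≤ z) (ha : ∀ i, a i ≠ 0 ∧ (a i).natAbs ≤ z) (hc0 : ∀ j, c j ≠ 0) (h8 : 8 * (K + 1) * PW z ≤ X)
    (E₀ : Finset (ℕ × ℕ)) {δ e ε : ℝ}
    (he : 0 < e) (he16 : e ≤ 1 / 16) (heε : 8 * e ≤ ε) (hε1 : ε ≤ 1) (hδ : 0 ≤ δ) (hLδ : 10 * L * δ ≤ e ^ 2)
    (hpn : ∀ j, ∀ n ∈ Ioc X (2 * X), |∑ t ∈ Icc 1 ((c j).natAbs * X), lm (fl X (c j) n + t)| ≤ δ * (((c j).natAbs * X : ℕ) : ℝ))
    (hc : ∀ j, ∀ n ∈ Ioc X (2 * X), ∀ m ∈ Ioc X (2 * X), n ≠ m → (n, m) ∉ E₀ →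
      |∑ t ∈ Icc 1 ((c j).natAbs * X), lm (fl X (c j) n + t) * lm (fl X (c j) m + t)| ≤ δ * (((c j).natAbs * X : ℕ) : ℝ))
    (hcount : HLS X a (ε / 2))
    (hnear : ∀ b : Fin K → ZMod (PW z), (((SbS X a b).filter fun s => ¬ (|singS a s - singPS a s z| ≤ e * singPS a s z)).card : ℝ) ≤ ε / 8 * (SbS X a b).card)
    (hpair : ∑ b ∈ AdW (um (PW z) a), (∑ s ∈ SbS X a b, 2 ^ (L + 2) * (PRl X a E₀ s / MbS X (um (PW z) a) b ^ 2)) / ((SbS X a b).card : ℝ) ≤
      (e ^ 2 * (ε / 8)) * ((AdW (um (PW z) a)).card : ℝ)) :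
    HLl X a c ε := by
  have hX0 : (0 : ℝ) < X := by
    have : 0 < X := by omega
    exact_mod_cast this
  have hε0 : 0 < ε := by linarith
  -- the bad event in the classes
  obtain ⟨Ev, hEv⟩ : ∃ Ev : (Fin K → ℕ) → Prop, ∀ s, Ev s ↔ ¬ (|singS a s - singPS a s z| ≤ e * singPS a s z ∧
      2 ^ (L + 2) * PRl X a E₀ s ≤ e ^ 2 * (X * singPS a s z) ^ 2) := ⟨_, fun _ => Iff.rfl⟩
  have hpos : ∀ b ∈ AdW (um (PW z) a), 0 < MbS X (um (PW z) a) b := by
    intro b hb
    unfold AdW at hb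
    rw [mem_filter] at hb
    have : (0 : ℝ) < (GS (um (PW z) a) b).card := by exact_mod_cast card_pos.2 hb.2
    have hv := vv_pos z
    have hW : (0 : ℝ) < PW z := by exact_mod_cast PW_pos z
    unfold MbS
    exact mul_pos (div_pos (mul_pos hX0 this) hW) (pow_pos hv (K + 1))
  have hfin : ∑ b ∈ AdW (um (PW z) a), (((SbS X a b).filter fun s => Ev s).card : ℝ) / (SbS X a b).card ≤ (ε / 4) * (AdW (um (PW z) a)).card := by
    have hb : ∀ b ∈ AdW (um (PW z) a), (((SbS X a b).filter fun s => Ev s).card : ℝ) / (SbS X a b).card ≤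
        (e ^ 2)⁻¹ * ((∑ s ∈ SbS X a b, 2 ^ (L + 2) * (PRl X a E₀ s / MbS X (um (PW z) a) b ^ 2)) / ((SbS X a b).card : ℝ)) + ε / 8 := by
      intro b hb
      rcases Nat.eq_zero_or_pos (SbS X a b).card with h0 | h0
      · rw [h0]; simp; positivity
      have h0' : (0 : ℝ) < (SbS X a b).card := by exact_mod_cast h0
      have hMb0 := hpos b hb
      have hsub : (SbS X a b).filter (fun s => Ev s) ⊆
          (SbS X a b).filter (fun s => e ^ 2 < 2 ^ (L + 2) * (PRl X a E₀ s / MbS X (um (PW z) a) b ^ 2)) ∪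
            (SbS X a b).filter (fun s => ¬ (|singS a s - singPS a s z| ≤ e * singPS a s z)) := by
        intro s hs
        rw [mem_filter] at hs
        obtain ⟨hs1, hs2⟩ := hs
        rw [hEv] at hs2
        rw [mem_union, mem_filter, mem_filter]
        by_contra hcon
        push Not at hcon
        obtain ⟨c1, c2⟩ := hcon
        have c1 := c1 hs1
        have c2 := c2 hs1
        apply hs2
        have hsb : (fun i => ((s i : ℕ) : ZMod (PW z))) = b := by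
          funext i
          have := Fintype.mem_piFinset.1 hs1 i
          unfold bcl at this
          exact (mem_filter.1 this).2
        have hmb := (mbs z X K a s).1
        rw [hsb] at hmb
        refine ⟨c2, ?_⟩
        rw [← hmb]
        have e5 : 2 ^ (L + 2) * (PRl X a E₀ s / MbS X (um (PW z) a) b ^ 2) * MbS X (um (PW z) a) b ^ 2 ≤ e ^ 2 * MbS X (um (PW z) a) b ^ 2 := by gcongr
        have e6 : 2 ^ (L + 2) * (PRl X a E₀ s / MbS X (um (PW z) a) b ^ 2) * MbS X (um (PW z) a) b ^ 2 = 2 ^ (L + 2) * PRl X a E₀ s := by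
          field_simp
        rw [e6] at e5
        exact e5
      have hPn : ∀ s : Fin K → ℕ, 0 ≤ (2 : ℝ) ^ (L + 2) * (PRl X a E₀ s / MbS X (um (PW z) a) b ^ 2) := fun s =>
        mul_nonneg (by positivity) (div_nonneg (PRl_nonneg X a E₀ s) (by positivity))
      have hc4 : (((SbS X a b).filter fun s => e ^ 2 < 2 ^ (L + 2) * (PRl X a E₀ s / MbS X (um (PW z) a) b ^ 2)).card : ℝ) ≤
          (e ^ 2)⁻¹ * ∑ s ∈ SbS X a b, 2 ^ (L + 2) * (PRl X a E₀ s / MbS X (um (PW z) a) b ^ 2) := by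
        rw [card_eq_sum_ones, Nat.cast_sum, mul_sum]
        push_cast
        refine le_trans ?_ (sum_le_sum_of_subset_of_nonneg (filter_subset (fun s => e ^ 2 < 2 ^ (L + 2) * (PRl X a E₀ s / MbS X (um (PW z) a) b ^ 2)) (SbS X a b))
          (fun s _ _ => mul_nonneg (by positivity) (hPn s)))
        apply sum_le_sum
        intro s hs
        rw [mem_filter] at hs
        rw [inv_mul_eq_div, le_div_iff₀ (by positivity)]
        linarith [hs.2]
      have hc2 := hnear b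
      have hc3 : (((SbS X a b).filter fun s => Ev s).card : ℝ) ≤
          (e ^ 2)⁻¹ * ∑ s ∈ SbS X a b, 2 ^ (L + 2) * (PRl X a E₀ s / MbS X (um (PW z) a) b ^ 2) + ε / 8 * (SbS X a b).card := by
        have h3 := card_le_card hsub
        have h4 := h3.trans (card_union_le _ _)
        have h5 : (((SbS X a b).filter fun s => Ev s).card : ℝ) ≤
          (((SbS X a b).filter fun s => e ^ 2 < 2 ^ (L + 2) * (PRl X a E₀ s / MbS X (um (PW z) a) b ^ 2)).card : ℝ) +
          (((SbS X a b).filter (fun s => ¬ (|singS a s - singPS a s z| ≤ e * singPS a s z))).card : ℝ) := by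
          exact_mod_cast h4
        linarith
      rw [div_le_iff₀ h0']
      refine hc3.trans (le_of_eq ?_)
      rw [add_mul, mul_assoc (e ^ 2)⁻¹, div_mul_cancel₀ _ h0'.ne']
    have he2 : (0 : ℝ) ≤ (e ^ 2)⁻¹ := by positivity
    have hp2 := mul_le_mul_of_nonneg_left hpair he2
    have hcan : (e ^ 2)⁻¹ * (e ^ 2 * (ε / 8) * ((AdW (um (PW z) a)).card : ℝ)) = ε / 8 * ((AdW (um (PW z) a)).card : ℝ) := by
      rw [← mul_assoc, ← mul_assoc, inv_mul_cancel₀ (by positivity), one_mul]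
    rw [hcan] at hp2
    have hs := sum_le_sum hb
    rw [sum_add_distrib, ← mul_sum, sum_const, nsmul_eq_mul] at hs
    linarith
  have ht := tr mbs z X K a Ev (ε / 4) hKz ha h8 hfin
  unfold HLS at hcount
  unfold HLl
  have hsub : ((ATS X a).filter fun s => ¬ (0 < singS a s ∧ |cntS X a s * lgs X a - singS a s * X| ≤ ε * (singS a s * X) ∧ SignsS X a c ε s)) ⊆
      ((ATS X a).filter fun s => ¬ (|cntS X a s * (Real.log X * ∏ i, Real.log ((a i).natAbs * X)) - singS a s * X| ≤ ε / 2 * (singS a s * X))) ∪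
      ((ATS X a).filter fun s => Ev s) := by
    intro s hs
    rw [mem_filter] at hs
    rw [mem_union, mem_filter, mem_filter]
    by_contra hcon
    rw [not_or] at hcon
    obtain ⟨c1, c2⟩ := hcon
    have c1 : |cntS X a s * lgs X a - singS a s * X| ≤ ε / 2 * (singS a s * X) := by
      by_contra h
      exact c1 ⟨hs.1, h⟩
    have c2 : |singS a s - singPS a s z| ≤ e * singPS a s z ∧ 2 ^ (L + 2) * PRl X a E₀ s ≤ e ^ 2 * (X * singPS a s z) ^ 2 := by
      by_contra h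
      exact c2 ⟨hs.1, (hEv s).2 h⟩
    apply hs.2
    have hat := hs.1
    unfold ATS at hat
    rw [mem_filter, Fintype.mem_piFinset] at hat
    have hsp : 0 < singPS a s z := by
      have hne := ((mbs z X K a s).2 hKz ha).1 hat.2
      have hb : (fun i => ((s i : ℕ) : ZMod (PW z))) ∈ AdW (um (PW z) a) := by
        unfold AdW
        rw [mem_filter]
        exact ⟨mem_univ _, hne⟩
      have h1 := hpos _ hb
      rw [(mbs z X K a s).1] at h1
      exact (mul_pos_iff_of_pos_left hX0).1 h1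
    have h6 := (abs_le.1 c2.1).1
    have h7 : e * singPS a s z ≤ 1 / 16 * singPS a s z := mul_le_mul_of_nonneg_right he16 hsp.le
    have hs0 : 0 < singS a s := by linarith
    have hposX : 0 < singS a s * X := mul_pos hs0 hX0
    refine ⟨hs0, c1.trans (by nlinarith), ?_⟩
    refine signs_ofS sgn red hX (fun i => (ha i).1) hc0 s hat.1 E₀ (δ := δ) (e := e) (M := X * singPS a s z) he (by linarith) heε hε1 hδ hLδ hpn hc hposX c1 (by positivity) ?_ c2.2
    have h8 : singPS a s z ≤ 2 * singS a s := by linarith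
    calc (X : ℝ) * singPS a s z ≤ X * (2 * singS a s) := by gcongr
      _ = 2 * (singS a s * X) := by ring
  have h3 := (card_le_card hsub).trans (card_union_le _ _)
  have h4 : (((ATS X a).filter fun s => ¬ (0 < singS a s ∧ |cntS X a s * lgs X a - singS a s * X| ≤ ε * (singS a s * X) ∧ SignsS X a c ε s)).card : ℝ) ≤
      ((((ATS X a).filter fun s => ¬ (|cntS X a s * (Real.log X * ∏ i, Real.log ((a i).natAbs * X)) - singS a s * X| ≤ ε / 2 * (singS a s * X)))).card : ℝ) +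
      ((((ATS X a).filter fun s => Ev s)).card : ℝ) := by exact_mod_cast h3
  have h5 : ε / 2 * ((ATS X a).card : ℝ) + 2 * (ε / 4) * ((ATS X a).card : ℝ) = ε * ((ATS X a).card : ℝ) := by ring
  linarith

open Classical in
lemma HLl.mono {K L : ℕ} {X : ℕ} {a : Fin K → ℤ} {c : Fin L → ℤ} {ε ε' : ℝ} (h0 : 0 < ε) (hε : ε ≤ ε') (h : HLl X a c ε) : HLl X a c ε' := by
  unfold HLl at *
  have h1 : (((ATS X a).filter fun s => ¬ (0 < singS a s ∧ |cntS X a s * lgs X a - singS a s * X| ≤ ε' * (singS a s * X) ∧ SignsS X a c ε' s)).card : ℝ) ≤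
      (((ATS X a).filter fun s => ¬ (0 < singS a s ∧ |cntS X a s * lgs X a - singS a s * X| ≤ ε * (singS a s * X) ∧ SignsS X a c ε s)).card : ℝ) := by
    have : ((ATS X a).filter fun s => ¬ (0 < singS a s ∧ |cntS X a s * lgs X a - singS a s * X| ≤ ε' * (singS a s * X) ∧ SignsS X a c ε' s)) ⊆
      ((ATS X a).filter fun s => ¬ (0 < singS a s ∧ |cntS X a s * lgs X a - singS a s * X| ≤ ε * (singS a s * X) ∧ SignsS X a c ε s)) := by
      intro s hs
      rw [mem_filter] at hs ⊢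
      refine ⟨hs.1, fun h => hs.2 ⟨h.1, ?_, ?_⟩⟩
      · have : 0 ≤ singS a s * X := mul_nonneg h.1.le (Nat.cast_nonneg _)
        exact h.2.1.trans (by gcongr)
      · have h3 : 0 ≤ singS a s * X := mul_nonneg h.1.le (Nat.cast_nonneg _)
        intro u w hu hw
        refine (h.2.2 u w hu hw).trans ?_
        have hG : (0 : ℝ) ≤ ∏ j, (((c j).natAbs * X : ℕ) : ℝ) := prod_nonneg fun j _ => Nat.cast_nonneg _
        gcongr
    exact_mod_cast card_le_card this
  refine h1.trans (h.trans ?_)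
  gcongr

/-- the law for all systems of length and slopes up to `Q` -/
def PSL (X Q : ℕ) (ε : ℝ) : Prop := ∀ (K L : ℕ) (a : Fin K → ℤ) (c : Fin L → ℤ), K + L ≤ Q → (∀ i, a i ≠ 0 ∧ (a i).natAbs ≤ Q) → (∀ j, c j ≠ 0 ∧ (c j).natAbs ≤ Q) →
  HLl X a c ε

/-- the correlations of `λ` at all scales `Z ∈ [X, z X]`, exceptional pairs -/
theorem lccz (ms : S_MSL') (lc : ∀ A : ℕ, ∃ (b A' C₁ X₀ : ℕ), ∀ z X : ℕ, X₀ ≤ X →
    C₁ * Real.log (Real.log X) ≤ z → C₁ * (z : ℝ) ≤ Real.log X → ML A' X (2 * PW z ^ b) → LCc A z X) (pb : S_PWB) (A : ℕ) :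
    ∃ (B : ℕ) (C₀ : ℝ), 1 ≤ B ∧ 64 ≤ C₀ ∧
    ∀ (z X : ℕ) (ω T : ℝ), C₀ ≤ Real.log (Real.log X) → C₀ * Real.log (Real.log X) ≤ z → C₀ * z * Real.log (Real.log X) ≤ Real.log X →
      0 < ω → ω ≤ 1 / 4 → C₀ * Real.log (Real.log X) ≤ ω * Real.log X → 0 < T → 120 * B * z ≤ Real.log T → 7 * √(Real.log X) ≤ Real.log T →
      ZF (PW z ^ B) ω T → ∀ Z : ℕ, X ≤ Z → Z ≤ z * X → LCc A z Z := by
  obtain ⟨B, C₀, hB, hC₀, han⟩ := anL ms lc pb A
  refine ⟨B, 2 * C₀, hB, by linarith, ?_⟩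
  intro z X ω T hl hz hzL hω hω4 hωL hT hTz hTL hZF Z hXZ hZz
  have hl0 : 0 < Real.log (Real.log X) := by linarith
  have hl64 : 64 ≤ Real.log (Real.log X) := by linarith
  have hz0 : (0 : ℝ) ≤ z := by positivity
  have hzl0 : 0 ≤ (z : ℝ) * Real.log (Real.log X) := by positivity
  have h64z : 128 * Real.log (Real.log X) ≤ z := by nlinarith
  have h64L : 128 * z * Real.log (Real.log X) ≤ Real.log X := by nlinarith
  obtain ⟨s1, s2, s3, s4⟩ := Pool.Agent.Q145.LQ.scaleQ hl64 (by linarith) (by nlinarith) hXZ hZz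
  obtain ⟨g1, g2, g3, g4, g5, g6, g7, g8, g9⟩ := elem (z := z) (X := X) (C := 64) (M := 64) le_rfl (by norm_num) hl64 (by linarith) (by nlinarith)
  have hX0 : (0 : ℝ) < X := by rw [g6]; exact Real.exp_pos _
  have hz1 : (0 : ℝ) < z := by linarith
  have hlogZ : Real.log Z ≤ Real.log X * (49 / 36) := by
    have h1 : (Z : ℝ) ≤ z * X := by exact_mod_cast hZz
    have hZ0 : (0 : ℝ) < Z := by
      have : (X : ℝ) ≤ Z := by exact_mod_cast hXZ
      linarith
    have h2 := Real.log_le_log hZ0 h1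
    rw [Real.log_mul hz1.ne' hX0.ne'] at h2
    have h3 : Real.log z ≤ z := by
      have := Real.log_le_sub_one_of_pos hz1
      linarith
    linarith
  have hTL' : 6 * √(Real.log Z) ≤ Real.log T := by
    refine le_trans ?_ hTL
    have h1 : √(Real.log Z) ≤ 7 / 6 * √(Real.log X) := by
      apply Real.sqrt_le_iff.2
      refine ⟨by positivity, ?_⟩
      rw [mul_pow, Real.sq_sqrt g1.le]
      linarith
    linarith
  have hC₀' : (0 : ℝ) < C₀ := by linarith
  refine han z Z ω T (by linarith) ?_ ?_ hω hω4 ?_ hT hTz hTL' hZF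
  · have : C₀ * Real.log (Real.log Z) ≤ C₀ * (2 * Real.log (Real.log X)) := by gcongr
    linarith
  · have : C₀ * z * Real.log (Real.log Z) ≤ C₀ * z * (2 * Real.log (Real.log X)) := by gcongr
    linarith
  · have h1 : C₀ * Real.log (Real.log Z) ≤ C₀ * (2 * Real.log (Real.log X)) := by gcongr
    have h2 : ω * Real.log X ≤ ω * Real.log Z := by gcongr
    linarith

open Classical in
theorem sufSL (hcount : SUFP PS) (ms : S_MSL') (lc : ∀ A : ℕ, ∃ (b A' C₁ X₀ : ℕ), ∀ z X : ℕ, X₀ ≤ X →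
    C₁ * Real.log (Real.log X) ≤ z → C₁ * (z : ℝ) ≤ Real.log X → ML A' X (2 * PW z ^ b) → LCc A z X) (pb : S_PWB)
    (tail : S_TAILS') (pnl : S_PNL) (sgn : S_SGNQ) (red : S_RED) (mbs : S_MBSS) (tr : S_TRANSS)
    {a' : ℕ} (hpb : PBl a') : SUFP PSL := by
  obtain ⟨B, C₀, hB, hC₀, hcs⟩ := hcount
  obtain ⟨B', C₀', hB', hC₀', hl'⟩ := lccz ms lc pb (2 * (a' + 3))
  obtain ⟨X₁, hpnl⟩ := pnl (2 * (a' + 3))
  obtain ⟨z₁, hz₁⟩ := pb.2
  refine ⟨B + B', C₀ + C₀', by omega, by linarith, fun ε₁ hε₁ => ?_⟩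
  set ε : ℝ := min ε₁ 1 with hεdef
  have hε : 0 < ε := by positivity
  have hε1 : ε ≤ 1 := min_le_right _ _
  have hεε : ε ≤ ε₁ := min_le_left _ _
  set e : ℝ := ε / 32 with he
  have he0 : 0 < e := by positivity
  obtain ⟨M₁, hM₁, hcc⟩ := hcs (ε / 2) (by positivity)
  obtain ⟨Ct, X₀, z₀, hCt, htail⟩ := tail e he0
  obtain ⟨M₃, hM₃, hpair⟩ := hpb (e ^ 2 * (ε / 8)) (by positivity)
  have q1 := Real.exp_pos (8 * Ct / ε)
  have q2 : (0 : ℝ) ≤ X₀ := by positivity
  have q3 : (0 : ℝ) ≤ z₀ := by positivity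
  have q4 : (0 : ℝ) ≤ z₁ := by positivity
  have q5 : 0 < 1 / e ^ 2 := by positivity
  have q6 : (0 : ℝ) ≤ X₁ := by positivity
  set M : ℝ := M₁ + M₃ + X₀ + X₁ + z₀ + z₁ + Real.exp (8 * Ct / ε) + 1 / e ^ 2 + (C₀ + C₀') with hM
  refine ⟨M, by linarith, ?_⟩
  intro z X ω T hl hz hzL hω hω4 hωL hT hTz hTL hZF Q hQ K L a c hKQ haQ hcQ
  refine HLl.mono hε hεε ?_
  have hK : 16 * (K + L) ≤ z := by omega
  have ha : ∀ i, a i ≠ 0 ∧ (a i).natAbs ≤ z := fun i => ⟨(haQ i).1, by have := (haQ i).2; omega⟩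
  have hcz : ∀ j, c j ≠ 0 ∧ (c j).natAbs ≤ z := fun j => ⟨(hcQ j).1, by have := (hcQ j).2; omega⟩
  have hM64 : 64 ≤ M := by linarith
  have hl0 : 0 < Real.log (Real.log X) := by linarith
  have hz0' : (0 : ℝ) ≤ z := by positivity
  have hzl0 : 0 ≤ (z : ℝ) * Real.log (Real.log X) := by positivity
  have w0 : 64 * Real.log (Real.log X) ≤ (C₀ + C₀') * Real.log (Real.log X) := by gcongr; linarith
  have w1 : C₀ * Real.log (Real.log X) ≤ (C₀ + C₀') * Real.log (Real.log X) := by gcongr; linarith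
  have w2 : C₀' * Real.log (Real.log X) ≤ (C₀ + C₀') * Real.log (Real.log X) := by gcongr; linarith
  have w5 : 64 * z * Real.log (Real.log X) ≤ (C₀ + C₀') * z * Real.log (Real.log X) := by gcongr; linarith
  have w3 : C₀ * z * Real.log (Real.log X) ≤ (C₀ + C₀') * z * Real.log (Real.log X) := by gcongr; linarith
  have w4 : C₀' * z * Real.log (Real.log X) ≤ (C₀ + C₀') * z * Real.log (Real.log X) := by gcongr; linarith
  have hBz : 120 * (B : ℝ) * z ≤ 120 * ((B + B' : ℕ) : ℝ) * z := by gcongr; exact_mod_cast Nat.le_add_right _ _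
  have hBz' : 120 * (B' : ℝ) * z ≤ 120 * ((B + B' : ℕ) : ℝ) * z := by gcongr; exact_mod_cast Nat.le_add_left _ _
  have hZF1 : ZF (PW z ^ B) ω T := zf_mono (Nat.pow_le_pow_right (PW_pos z) (Nat.le_add_right _ _)) hZF
  have hZF2 : ZF (PW z ^ B') ω T := zf_mono (Nat.pow_le_pow_right (PW_pos z) (Nat.le_add_left _ _)) hZF
  have hz64 := w0.trans hz
  have hzL64 := w5.trans hzL
  obtain ⟨hL0, hLM, hzM, hzL', hzl, hXe, hLe, hl1, hlL⟩ := elem (C := 64) le_rfl (by linarith : 1 ≤ M) hl hz64 hzL64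
  have hz0 : (0 : ℝ) < z := by linarith
  have hz64n : 64 ≤ z := by
    have : (64 : ℝ) ≤ z := by linarith
    exact_mod_cast this
  have hzz : z₀ ≤ z := by
    have : (z₀ : ℝ) ≤ z := by linarith
    exact_mod_cast this
  have hz11 : z₁ ≤ z := by
    have : (z₁ : ℝ) ≤ z := by linarith
    exact_mod_cast this
  have hXL : Real.log X ≤ X := by
    have := Real.add_one_le_exp (Real.log X)
    rw [← hXe] at this; linarith
  have hXs : X₀ ≤ X := by
    have : (X₀ : ℝ) ≤ X := by linarith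
    exact_mod_cast this
  have hXs1 : X₁ ≤ X := by
    have : (X₁ : ℝ) ≤ X := by linarith
    exact_mod_cast this
  have hX3 : 3 ≤ X := by
    have : (3 : ℝ) ≤ X := by linarith
    exact_mod_cast this
  have hX0 : (0 : ℝ) < X := by linarith
  have hWe : (PW z : ℝ) ≤ Real.exp (2 * z) := PW_le pb z
  have hlogz : 8 * Ct / ε ≤ Real.log z := by
    rw [Real.le_log_iff_exp_le hz0]; linarith
  have hlz0 : 0 < Real.log z := lt_of_lt_of_le (by positivity) hlogz
  have hδt : Ct / Real.log z ≤ ε / 8 := by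
    rw [div_le_iff₀ hlz0]
    rw [div_le_iff₀ hε] at hlogz
    linarith
  have hW2 : (PW z : ℝ) ^ 2 ≤ X := by
    calc (PW z : ℝ) ^ 2 ≤ (Real.exp (2 * z)) ^ 2 := by gcongr
      _ = Real.exp (4 * z) := by rw [← Real.exp_nat_mul]; ring_nf
      _ ≤ Real.exp (Real.log X) := Real.exp_le_exp.2 (by linarith)
      _ = X := hXe.symm
  have hKLz : (16 : ℝ) * (K + L) ≤ z := by exact_mod_cast hK
  have hKnn : (0 : ℝ) ≤ K := by positivity
  have hLnn : (0 : ℝ) ≤ L := by positivity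
  have h8 : 8 * (K + 1) * PW z ≤ X := by
    have : (8 * ((K : ℝ) + 1)) * PW z ≤ X := by
      calc (8 * ((K : ℝ) + 1)) * PW z ≤ Real.exp z * Real.exp (2 * z) := by
            gcongr
            have : (z : ℝ) + 1 ≤ Real.exp z := Real.add_one_le_exp _
            linarith
        _ = Real.exp (3 * z) := by rw [← Real.exp_add]; ring_nf
        _ ≤ Real.exp (Real.log X) := Real.exp_le_exp.2 (by linarith)
        _ = X := hXe.symm
    exact_mod_cast this
  -- the correlations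
  have hLC : ∀ g : ℕ, ∃ E : Finset (ℕ × ℕ), 1 ≤ g → g ≤ z → (E.card : ℝ) ≤ ((g * X : ℕ) : ℝ) ^ 2 / (PW z : ℝ) ^ (2 * (a' + 3)) ∧
      ∀ n ∈ Ioc (g * X) (2 * (g * X)), ∀ m ∈ Ioc (g * X) (2 * (g * X)), n ≠ m → (n, m) ∉ E →
        |∑ t ∈ Icc 1 (g * X), lm (n + t) * lm (m + t)| ≤ ((g * X : ℕ) : ℝ) / Real.log ((g * X : ℕ) : ℝ) ^ (2 * (a' + 3)) := by
    intro g
    by_cases hg : 1 ≤ g ∧ g ≤ z
    · obtain ⟨E, hE1, hE2⟩ := hl' z X ω T (by linarith) (w2.trans hz) (w4.trans hzL) hω hω4 (w2.trans hωL) hT (hBz'.trans hTz)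
        (by have := Real.sqrt_nonneg (Real.log X); linarith) hZF2 (g * X) (Nat.le_mul_of_pos_left X (by omega)) (Nat.mul_le_mul_right _ hg.2)
      exact ⟨E, fun _ _ => ⟨hE1, hE2⟩⟩
    · exact ⟨∅, fun h1 h2 => absurd ⟨h1, h2⟩ hg⟩
  choose Eg hEg using hLC
  set E : Finset (ℕ × ℕ) := ((Ioc X (2 * X)) ×ˢ (Ioc X (2 * X))).filter fun q : ℕ × ℕ => ∃ j, (fl X (c j) q.1, fl X (c j) q.2) ∈ Eg (c j).natAbs with hE
  have hEc : (E.card : ℝ) ≤ (X : ℝ) ^ 2 / (PW z : ℝ) ^ (2 * a') := by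
    refine (exc_card red c hcz Eg fun g h1 h2 => (hEg g h1 h2).1).trans ?_
    have h6 := K_le_W (K := L) hz64n (by omega) (hz₁ z hz11)
    have hW0 : (0 : ℝ) < PW z := by exact_mod_cast PW_pos z
    calc (L : ℝ) * (z : ℝ) ^ 2 * ((X : ℝ) ^ 2 / (PW z : ℝ) ^ (2 * (a' + 3))) ≤ (PW z : ℝ) ^ 6 * ((X : ℝ) ^ 2 / (PW z : ℝ) ^ (2 * (a' + 3))) := by gcongr
      _ = _ := by
        have : (PW z : ℝ) ^ (2 * (a' + 3)) = (PW z : ℝ) ^ 6 * (PW z : ℝ) ^ (2 * a') := by ring
        rw [this]; field_simp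
  have hcnt := hcc z X ω T (by linarith) (w1.trans hz) (w3.trans hzL) hω hω4 (w1.trans hωL) hT (hBz.trans hTz) hTL hZF1 Q hQ K a (by omega) haQ
  have hpr := hpair z X K L a (by linarith) hz64 hzL64 hK ha E hEc
  -- the small parameter
  have hLX1 : 1 ≤ Real.log X := by linarith
  set δ : ℝ := 1 / Real.log X ^ 2 with hδdef
  have hδ0 : 0 ≤ δ := by positivity
  have he2L : 1 / Real.log X ≤ e ^ 2 := by
    have h1 : 1 / e ^ 2 ≤ Real.log X := by linarith
    rw [div_le_iff₀ hL0]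
    rw [div_le_iff₀ (by positivity)] at h1
    linarith
  have hLδ : 10 * L * δ ≤ e ^ 2 := by
    have h10 : 10 * (L : ℝ) ≤ Real.log X := by linarith
    calc 10 * L * δ ≤ Real.log X * (1 / Real.log X ^ 2) := by gcongr
      _ = 1 / Real.log X := by field_simp
      _ ≤ e ^ 2 := he2L
  have hgX : ∀ j, X ≤ (c j).natAbs * X := fun j => Nat.le_mul_of_pos_left X (Int.natAbs_pos.2 (hcz j).1)
  have hdiv : ∀ j, ∀ x : ℝ, x ≤ (((c j).natAbs * X : ℕ) : ℝ) / Real.log (((c j).natAbs * X : ℕ) : ℝ) ^ (2 * (a' + 3)) → x ≤ δ * (((c j).natAbs * X : ℕ) : ℝ) := by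
    intro j x hx
    refine hx.trans ?_
    rw [hδdef, one_div_mul_eq_div]
    have hGX : (X : ℝ) ≤ (((c j).natAbs * X : ℕ) : ℝ) := by exact_mod_cast hgX j
    have h1 : Real.log X ≤ Real.log (((c j).natAbs * X : ℕ) : ℝ) := Real.log_le_log hX0 hGX
    apply div_le_div_of_nonneg_left (by linarith) (by positivity)
    calc Real.log X ^ 2 ≤ Real.log (((c j).natAbs * X : ℕ) : ℝ) ^ 2 := by gcongr
      _ ≤ Real.log (((c j).natAbs * X : ℕ) : ℝ) ^ (2 * (a' + 3)) := pow_le_pow_right₀ (by linarith) (by omega)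
  refine law_ofS sgn red mbs tr hX3 (by omega) ha (fun j => (hcz j).1) h8 E (δ := δ) (e := e) he0 (by rw [he]; linarith) (by rw [he]; linarith)
    hε1 hδ0 hLδ ?_ ?_ hcnt ?_ hpr
  · intro j n hn
    have hfl := ((red X (c j) (hcz j).1).1 n hn).1
    exact hdiv j _ (hpnl _ (hXs1.trans (hgX j)) _ hfl)
  · intro j n hn m hm hnm hE'
    have hfl := ((red X (c j) (hcz j).1).1 n hn).1
    have hfl' := ((red X (c j) (hcz j).1).1 m hm).1
    have hd := (red X (c j) (hcz j).1).2.1 n hn m hm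
    have hne : fl X (c j) n ≠ fl X (c j) m := by
      intro h
      rw [h] at hd
      have h5 : dst (fl X (c j) m) (fl X (c j) m) = 0 := by unfold dst; omega
      rw [h5] at hd
      have h6 := dst_pos hnm
      have h8 : 0 < (c j).natAbs * dst n m := Nat.mul_pos (Int.natAbs_pos.2 (hcz j).1) (by omega)
      omega
    have hnE : (fl X (c j) n, fl X (c j) m) ∉ Eg (c j).natAbs := by
      intro h
      apply hE'
      rw [hE, mem_filter, mem_product]
      exact ⟨⟨hn, hm⟩, j, h⟩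
    exact hdiv j _ ((hEg _ (Int.natAbs_pos.2 (hcz j).1) (hcz j).2).2 _ hfl _ hfl' hne hnE)
  · intro b
    refine (htail z X K a hXs hzz (by omega) ha (by linarith) hW2 b).trans ?_
    exact mul_le_mul_of_nonneg_right hδt (Nat.cast_nonneg _)

end Pool.Agent.Q145.GL
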